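import Pool.Agent.Helper44.CM.StmtsB5

/-!
# Project MM, block B5, row APL0

The uniform a priori estimate at level 0 for the linearised moment map operator.
-/

open MeasureTheory

namespace Helper1.MM

open CM

variable {n : ℕ}

theorem H0.mono' {a b : ℝ} {f : E n → ℝ} (hab : a ≤ b) (h : H0 a f) : H0 b f :=
  ⟨fun x => (h.1 x).trans hab,
    fun x y => (h.2 x y).trans (mul_le_mul_of_nonneg_right hab (Real.sqrt_nonneg _))⟩

theorem H2.zero_mono {a b : ℝ} {u : E n → ℝ} (hab : a ≤ b) (h : H2 0 a u) : H2 0 b u :=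
  ⟨h.1, fun i j => ⟨(h.2 i j).1, fun l hl => H0.mono' hab ((h.2 i j).2 l hl)⟩⟩

theorem H2.zero_of_three {a : ℝ} {u : E n → ℝ} (h : H2 3 a u) : H2 0 a u :=
  ⟨h.1.of_le (by norm_num), fun i j =>
    ⟨(h.2 i j).1.of_le (by norm_num), fun l hl => (h.2 i j).2 l (by omega)⟩⟩

/-- The classes `H2 0` are closed in the constant. -/
theorem H2.zero_lim {a : ℕ → ℝ} {b : ℝ} {u : E n → ℝ}
    (hab : Filter.Tendsto a Filter.atTop (nhds b)) (h : ∀ k, H2 0 (a k) u) : H2 0 b u := by
  refine ⟨(h 0).1, fun i j => ⟨((h 0).2 i j).1, fun l hl => ⟨fun x => ?_, fun x y => ?_⟩⟩⟩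
  · exact ge_of_tendsto' hab fun k => (((h k).2 i j).2 l hl).1 x
  · exact ge_of_tendsto' (hab.mul_const _) fun k => (((h k).2 i j).2 l hl).2 x y

/-- Absorption: an estimate with a factor `1/2` of the constant itself improves. -/
theorem H2.zero_absorb {u : E n → ℝ} {M A : ℝ} (hM : H2 0 M u) (hM0 : 0 ≤ M) (hA : 0 ≤ A)
    (h : ∀ M' : ℝ, 0 ≤ M' → H2 0 M' u → H2 0 (A + M' / 2) u) : H2 0 (2 * A) u := by
  have hk : ∀ k : ℕ, H2 0 (2 * A + M * (1 / 2) ^ k) u := by
    intro k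
    induction k with
    | zero => exact H2.zero_mono (by simp; linarith) hM
    | succ k ih =>
      have h0 : 0 ≤ 2 * A + M * (1 / 2) ^ k := by positivity
      have h1 := h _ h0 ih
      have h2 : A + (2 * A + M * (1 / 2) ^ k) / 2 = 2 * A + M * (1 / 2) ^ (k + 1) := by ring
      rw [h2] at h1
      exact h1
  have ht : Filter.Tendsto (fun k : ℕ => 2 * A + M * (1 / 2) ^ k) Filter.atTop
      (nhds (2 * A + M * 0)) :=
    ((tendsto_pow_atTop_nhds_zero_of_lt_one (by norm_num) (by norm_num)).const_mul M).const_add _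
  rw [mul_zero, add_zero] at ht
  exact H2.zero_lim ht hk

theorem H0.nonneg' {a : ℝ} {f : E n → ℝ} (h : H0 a f) : 0 ≤ a :=
  (abs_nonneg _).trans (h.1 0)

theorem HB.H0' {k : ℕ} {a : ℝ} {f : E n → ℝ} (h : HB k a f) : H0 a f :=
  h.2 [] (by simp)

/-- Value of the equation `(A - 1) u = r` at the origin. -/
theorem AK_zero (τ : E n → Mt n) (u : E n → ℝ) :
    u 0 = - AK τ 1 u 0 - tr2 (τ 0) (hess u 0) := by
  simp only [AK, LL, eul, map_zero]
  ring

theorem tr2_abs_le (A B : Mt n) (a b : ℝ) (ha : ∀ i j, |A i j| ≤ a) (hb : ∀ i j, |B i j| ≤ b)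
    (ha0 : 0 ≤ a) : |tr2 A B| ≤ (n : ℝ) ^ 2 * (a * b) := by
  unfold tr2
  calc |∑ i, ∑ j, A i j * B i j| ≤ ∑ i, |∑ j, A i j * B i j| := Finset.abs_sum_le_sum_abs _ _
    _ ≤ ∑ i : Fin n, ∑ j : Fin n, |A i j * B i j| :=
        Finset.sum_le_sum fun i _ => Finset.abs_sum_le_sum_abs _ _
    _ ≤ ∑ i : Fin n, ∑ j : Fin n, a * b := by
        refine Finset.sum_le_sum fun i _ => Finset.sum_le_sum fun j _ => ?_
        rw [abs_mul]
        exact mul_le_mul (ha i j) (hb i j) (abs_nonneg _) ha0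
    _ = (n : ℝ) ^ 2 * (a * b) := by
        simp only [Finset.sum_const, Finset.card_univ, Fintype.card_fin, nsmul_eq_mul]
        ring

theorem st_APL0 (hL2 : ST_L2) (hBE : ST_BE) (hCOEF : ST_COEF) (hLOC : ST_LOCSUP)
    (hEV : ST_EVLOC) : ST_APL0 := by
  intro n c K hc
  obtain ⟨K', hK'⟩ := hCOEF n c K hc
  obtain ⟨C2, hC2⟩ := hL2 n c K hc
  obtain ⟨C1, R, hC1⟩ := hBE n K' 1 le_rfl
  obtain ⟨C3, hC3⟩ := hEV n (max R 0) (le_max_right _ _)
  set P : ℝ := (n : ℝ) ^ 2 * |K'| + |C3| with hP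
  have hP0 : 0 ≤ P := by positivity
  set t : ℝ := 1 / (2 * (|C1| * P + 1)) with ht
  have ht0 : 0 < t := by positivity
  obtain ⟨C4, hC4⟩ := hLOC n (max R 0) (t ^ 2) (by positivity)
  set Q : ℝ := |C4| * Real.sqrt |C2| with hQ
  have hQ0 : 0 ≤ Q := by positivity
  set A : ℝ := |C1| * (1 + P * Q) with hA
  have hA0 : 0 ≤ A := by positivity
  refine ⟨2 * A + (1 + (n : ℝ) ^ 2 * (|K'| * (2 * A))), ?_⟩
  intro V hVe hV u r M N hue huM heq hr
  -- the coefficient
  have hcoef : Coef K' (tau V) := by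
    refine hK' V (hV.bd.1.of_le (by norm_num)) hV.lo ?_ ?_ hV.far
    · intro x i j
      exact ((hV.bd.2 i j).2 [] (by simp)).1 x
    · intro x l hl
      match l, hl with
      | [k, i, j], _ => exact ((hV.bd.2 i j).2 [k] (by simp)).1 x
  have hN0 : 0 ≤ N := H0.nonneg' (HB.H0' hr)
  have hK'0 : 0 ≤ |K'| := abs_nonneg _
  have hfun : AK (tau V) 1 u = r := funext heq
  -- the L2 bound
  obtain ⟨hint, hle⟩ := hC2 V (hV.bd.1.of_le (by norm_num)) hVe hV.lo
    (fun x i j => ((hV.bd.2 i j).2 [] (by simp)).1 x) ⟨K, hV.bd⟩ hV.gau u r M N hue huM heq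
    (HB.H0' hr).1
  have hcont : ∀ i j : Fin n, Continuous (pd i (pd j u)) := fun i j => (huM.2 i j).1.continuous
  have hqc : Continuous fun x : E n => Real.exp (- qn x) := by
    unfold qn
    fun_prop
  have hdom : ∀ (i j : Fin n) (x : E n), pd i (pd j u) x ^ 2 * Real.exp (- qn x) ≤
      (∑ i, ∑ j, (pd i (pd j u) x) ^ 2) * Real.exp (- qn x) := by
    intro i j x
    refine mul_le_mul_of_nonneg_right ?_ (Real.exp_pos _).le
    calc pd i (pd j u) x ^ 2 ≤ ∑ j, pd i (pd j u) x ^ 2 :=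
          Finset.single_le_sum (f := fun j => pd i (pd j u) x ^ 2) (fun _ _ => sq_nonneg _)
            (Finset.mem_univ j)
      _ ≤ ∑ i, ∑ j, pd i (pd j u) x ^ 2 :=
          Finset.single_le_sum (f := fun i => ∑ j, pd i (pd j u) x ^ 2)
            (fun _ _ => Finset.sum_nonneg fun _ _ => sq_nonneg _) (Finset.mem_univ i)
  have hint1 : ∀ i j : Fin n,
      Integrable (fun x : E n => pd i (pd j u) x ^ 2 * Real.exp (- qn x)) := by
    intro i j
    refine hint.mono' (((hcont i j).pow 2).mul hqc).aestronglyMeasurable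
      (Filter.Eventually.of_forall fun x => ?_)
    rw [Real.norm_of_nonneg (mul_nonneg (sq_nonneg _) (Real.exp_pos _).le)]
    exact hdom i j x
  have hle1 : ∀ i j : Fin n,
      ∫ x : E n, pd i (pd j u) x ^ 2 * Real.exp (- qn x) ≤ (Real.sqrt |C2| * N) ^ 2 := by
    intro i j
    calc ∫ x : E n, pd i (pd j u) x ^ 2 * Real.exp (- qn x)
        ≤ ∫ x : E n, (∑ i, ∑ j, (pd i (pd j u) x) ^ 2) * Real.exp (- qn x) :=
          integral_mono (hint1 i j) hint (hdom i j)
      _ ≤ C2 * N ^ 2 := hle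
      _ ≤ |C2| * N ^ 2 := mul_le_mul_of_nonneg_right (le_abs_self _) (sq_nonneg _)
      _ = (Real.sqrt |C2| * N) ^ 2 := by rw [mul_pow, Real.sq_sqrt (abs_nonneg _)]
  have hu2 : ContDiff ℝ 2 u := huM.1.of_le (by norm_num)
  -- value at the origin from a bound of the Hessian
  have hzero : ∀ b : ℝ, (∀ i j, |pd i (pd j u) (0 : E n)| ≤ b) →
      |u 0| ≤ N + (n : ℝ) ^ 2 * (|K'| * b) := by
    intro b hb
    have h1 : |tr2 (tau V 0) (hess u 0)| ≤ (n : ℝ) ^ 2 * (|K'| * b) :=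
      tr2_abs_le _ _ _ _ (fun i j => (hcoef.bd 0 i j).trans (le_abs_self _)) hb hK'0
    have h2 : |AK (tau V) 1 u 0| ≤ N := by
      rw [hfun]
      exact (HB.H0' hr).1 0
    rw [AK_zero (tau V) u]
    have h3 := abs_sub (- AK (tau V) 1 u 0) (tr2 (tau V 0) (hess u 0))
    rw [abs_neg] at h3
    linarith
  -- the main estimate
  have hmain : H2 0 (2 * (A * N)) u := by
    have hM0 : 0 ≤ max M 0 := le_max_right _ _
    refine H2.zero_absorb (H2.zero_mono (le_max_left M 0) (H2.zero_of_three huM)) hM0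
      (by positivity) ?_
    intro M' hM'0 hM'
    set b : ℝ := Q * N + M' * t with hb
    have hb0 : 0 ≤ b := by positivity
    have hball : ∀ x i j, ‖x‖ ≤ max R 0 → |pd i (pd j u) x| ≤ b := by
      intro x i j hx
      have h1 := hC4 (pd i (pd j u)) M' (Real.sqrt |C2| * N) (by positivity)
        ((hM'.2 i j).2 [] (by simp)) (hint1 i j) (hle1 i j) x hx
      rw [Real.sqrt_sq ht0.le] at h1
      have h2 : C4 * (Real.sqrt |C2| * N) ≤ Q * N := by
        rw [hQ, mul_assoc]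
        exact mul_le_mul_of_nonneg_right (le_abs_self _) (by positivity)
      rw [hb]
      linarith
    have hu0 : |u 0| ≤ N + (n : ℝ) ^ 2 * (|K'| * b) :=
      hzero b fun i j => hball 0 i j (by simp)
    have hub : ∀ x, ‖x‖ ≤ R → |u x| ≤ N + P * b := by
      intro x hx
      have h1 := (hC3 u _ b hu2 hue hu0 hball x (hx.trans (le_max_left _ _))).1
      have h2 : C3 * b ≤ |C3| * b := mul_le_mul_of_nonneg_right (le_abs_self _) hb0
      have h3 : P * b = (n : ℝ) ^ 2 * (|K'| * b) + |C3| * b := by rw [hP]; ring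
      linarith
    have hNle : N ≤ N + P * b := by
      have : 0 ≤ P * b := by positivity
      linarith
    have hAK : H0 (N + P * b) (AK (tau V) 1 u) := by
      rw [hfun]
      exact H0.mono' hNle (HB.H0' hr)
    have hfin := hC1 (tau V) hcoef u M' (N + P * b) hM' hAK hub
    refine H2.zero_mono ?_ hfin
    have h5 : C1 * (N + P * b) ≤ |C1| * (N + P * b) :=
      mul_le_mul_of_nonneg_right (le_abs_self _) (by positivity)
    have h6 : |C1| * (N + P * b) = A * N + (|C1| * P * t) * M' := by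
      rw [hA, hb]; ring
    have h7 : |C1| * P * t ≤ 1 / 2 := by
      rw [ht]
      have h8 : 0 ≤ |C1| * P := by positivity
      rw [mul_one_div, div_le_div_iff₀ (by positivity) (by norm_num)]
      linarith
    have h9 : (|C1| * P * t) * M' ≤ 1 / 2 * M' := mul_le_mul_of_nonneg_right h7 hM'0
    linarith
  constructor
  · refine H2.zero_mono ?_ hmain
    have : 0 ≤ (1 + (n : ℝ) ^ 2 * (|K'| * (2 * A))) * N := by positivity
    linarith
  · have h1 := hzero (2 * (A * N)) fun i j => ((hmain.2 i j).2 [] (by simp)).1 0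
    have h2 : (2 * A + (1 + (n : ℝ) ^ 2 * (|K'| * (2 * A)))) * N =
        2 * (A * N) + (N + (n : ℝ) ^ 2 * (|K'| * (2 * (A * N)))) := by ring
    have h3 : 0 ≤ A * N := by positivity
    rw [h2]
    linarith

end Helper1.MM

namespace CM

theorem st_APL0 (hL2 : ST_L2) (hBE : ST_BE) (hCOEF : ST_COEF) (hLOC : ST_LOCSUP)
    (hEV : ST_EVLOC) : ST_APL0 :=
  Helper1.MM.st_APL0 hL2 hBE hCOEF hLOC hEV

end CM
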